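import Pool.Agent.Q72.EG.Stm

/-!
# Algebraic elements: clearing denominators
-/

set_option autoImplicit false

namespace Pool.Agent.Q206.EG

open MvPolynomial Filter Topology Metric Pool.Agent.W996.EC Pool.Agent.Q72.EG

open scoped IntermediateField.algebraAdjoinAdjoin in
theorem alg_adjoin {E : Type} [Field E] [Algebra ℂ E] (S : Set E) (f : E)
    (h : IsAlgebraic (IntermediateField.adjoin ℂ S) f) : IsAlgebraic (Algebra.adjoin ℂ S) f :=
  (IsFractionRing.isAlgebraic_iff (Algebra.adjoin ℂ S) (IntermediateField.adjoin ℂ S) E).2 h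

theorem alg_poly {E : Type} [Field E] [Algebra ℂ E] {τ : Type} (ζ : τ → E) (f : E)
    (h : IsAlgebraic (IntermediateField.adjoin ℂ (Set.range ζ)) f) :
    ∃ A : Polynomial (MvPolynomial τ ℂ), (∃ b, aeval ζ (A.coeff b) ≠ 0) ∧
      (A.map (aeval ζ : MvPolynomial τ ℂ →ₐ[ℂ] E).toRingHom).eval f = 0 := by
  obtain ⟨p, hp, hpf⟩ := alg_adjoin _ _ h
  set ψ : MvPolynomial τ ℂ →ₐ[ℂ] (Algebra.adjoin ℂ (Set.range ζ)) :=
    (aeval ζ : MvPolynomial τ ℂ →ₐ[ℂ] E).codRestrict (Algebra.adjoin ℂ (Set.range ζ))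
      (fun g => by
        rw [Algebra.adjoin_range_eq_range_aeval]
        exact ⟨g, rfl⟩) with hψ
  have hsurj : Function.Surjective ψ := by
    rintro ⟨y, hy⟩
    have hy' := hy
    rw [Algebra.adjoin_range_eq_range_aeval] at hy'
    obtain ⟨g, hg⟩ := hy'
    exact ⟨g, Subtype.ext hg⟩
  obtain ⟨A, hA⟩ := Polynomial.map_surjective ψ.toRingHom hsurj p
  have hψv : ∀ g, ((ψ g : Algebra.adjoin ℂ (Set.range ζ)) : E) = aeval ζ g := fun g => rfl
  refine ⟨A, ?_, ?_⟩
  · by_contra hcon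
    push Not at hcon
    apply hp
    rw [← hA]
    ext b
    rw [Polynomial.coeff_map, Polynomial.coeff_zero]
    have : ((ψ (A.coeff b) : Algebra.adjoin ℂ (Set.range ζ)) : E) = 0 := by
      rw [hψv]; exact hcon b
    exact_mod_cast this
  · rw [← hA] at hpf
    rw [Polynomial.aeval_def, Polynomial.eval₂_map] at hpf
    rw [Polynomial.eval_map]
    have : (algebraMap (Algebra.adjoin ℂ (Set.range ζ)) E).comp ψ.toRingHom =
        (aeval ζ : MvPolynomial τ ℂ →ₐ[ℂ] E).toRingHom := by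
      ext g <;> rfl
    rwa [this] at hpf

end Pool.Agent.Q206.EG
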