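import Pool.Agent.Q72.EG.Stm

/-!
# ANN
-/

set_option autoImplicit false

namespace Pool.Agent.Q206.EG

open Filter Topology Metric Pool.Agent.W996.EC Pool.Agent.Q72.EG

theorem coeff_mul_X_sub (r : Polynomial ℂ) (z : ℂ) (b : ℕ) :
    (r * (Polynomial.X - Polynomial.C z)).coeff (b + 1) = r.coeff b - z * r.coeff (b + 1) := by
  rw [mul_sub, Polynomial.coeff_sub, Polynomial.coeff_mul_X, Polynomial.coeff_mul_C, mul_comm]

theorem coeff_mul_X_sub_zero (r : Polynomial ℂ) (z : ℂ) :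
    (r * (Polynomial.X - Polynomial.C z)).coeff 0 = - (z * r.coeff 0) := by
  rw [mul_sub, Polynomial.coeff_sub, Polynomial.coeff_mul_C, Polynomial.mul_coeff_zero,
    Polynomial.coeff_X_zero, mul_zero, zero_sub, mul_comm]

/-- bound of all coefficients from the domination -/
theorem dom_le {r : Polynomial ℂ} {k : ℕ} {δ : ℝ} (hδ : δ ≤ 1)
    (h : ∀ b, b ≠ k → ‖r.coeff b‖ ≤ δ * ‖r.coeff k‖) (b : ℕ) : ‖r.coeff b‖ ≤ ‖r.coeff k‖ := by
  by_cases hb : b = k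
  · rw [hb]
  · exact (h b hb).trans (mul_le_of_le_one_left (norm_nonneg _) hδ)

/-- one small root -/
theorem dom_small {r : Polynomial ℂ} {k : ℕ} {δ δ' : ℝ} {z : ℂ} (h0 : 0 ≤ δ) (h0' : 0 ≤ δ')
    (hδ : δ ≤ 1 / 2) (hδ' : δ' ≤ 1 / 2) (h : ∀ b, b ≠ k → ‖r.coeff b‖ ≤ δ * ‖r.coeff k‖)
    (hz : ‖z‖ ≤ δ') :
    ∀ b, b ≠ k + 1 → ‖(r * (Polynomial.X - Polynomial.C z)).coeff b‖ ≤
      2 * (δ + δ') * ‖(r * (Polynomial.X - Polynomial.C z)).coeff (k + 1)‖ := by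
  have hall := dom_le (hδ.trans (by norm_num)) h
  have h1 : ‖r.coeff k‖ / 2 ≤ ‖(r * (Polynomial.X - Polynomial.C z)).coeff (k + 1)‖ := by
    rw [coeff_mul_X_sub]
    have a1 : ‖z * r.coeff (k + 1)‖ ≤ 1 / 2 * ‖r.coeff k‖ := by
      rw [norm_mul]
      exact mul_le_mul (hz.trans hδ') (hall _) (norm_nonneg _) (by norm_num)
    have a2 := norm_sub_norm_le (r.coeff k) (z * r.coeff (k + 1))
    linarith
  have hk : 0 ≤ ‖r.coeff k‖ := norm_nonneg _
  intro b hb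
  have h2 : ‖(r * (Polynomial.X - Polynomial.C z)).coeff b‖ ≤ (δ + δ') * ‖r.coeff k‖ := by
    rcases b with _ | b
    · rw [coeff_mul_X_sub_zero, norm_neg, norm_mul]
      have := mul_le_mul hz (hall 0) (norm_nonneg _) h0'
      nlinarith
    · rw [coeff_mul_X_sub]
      have a1 : ‖r.coeff b‖ ≤ δ * ‖r.coeff k‖ := h b (by omega)
      have a2 : ‖z * r.coeff (b + 1)‖ ≤ δ' * ‖r.coeff k‖ := by
        rw [norm_mul]
        exact mul_le_mul hz (hall _) (norm_nonneg _) h0'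
      calc ‖r.coeff b - z * r.coeff (b + 1)‖ ≤ ‖r.coeff b‖ + ‖z * r.coeff (b + 1)‖ :=
            norm_sub_le _ _
        _ ≤ (δ + δ') * ‖r.coeff k‖ := by linarith
  calc ‖(r * (Polynomial.X - Polynomial.C z)).coeff b‖ ≤ (δ + δ') * ‖r.coeff k‖ := h2
    _ = 2 * (δ + δ') * (‖r.coeff k‖ / 2) := by ring
    _ ≤ _ := by
      apply mul_le_mul_of_nonneg_left h1
      positivity

/-- one large root -/
theorem dom_large {r : Polynomial ℂ} {k : ℕ} {δ δ' : ℝ} {z : ℂ} (h0 : 0 ≤ δ) (h0' : 0 < δ')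
    (hδ : δ ≤ 1 / 2) (hδ' : δ' ≤ 1 / 2) (h : ∀ b, b ≠ k → ‖r.coeff b‖ ≤ δ * ‖r.coeff k‖)
    (hz : δ'⁻¹ ≤ ‖z‖) :
    ∀ b, b ≠ k → ‖(r * (Polynomial.X - Polynomial.C z)).coeff b‖ ≤
      2 * (δ + δ') * ‖(r * (Polynomial.X - Polynomial.C z)).coeff k‖ := by
  have hall := dom_le (hδ.trans (by norm_num)) h
  have hk : 0 ≤ ‖r.coeff k‖ := norm_nonneg _
  have hz2 : (1 : ℝ) ≤ δ' * ‖z‖ := by
    have := mul_le_mul_of_nonneg_left hz h0'.le
    rwa [mul_inv_cancel₀ h0'.ne'] at this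
  have hz1 : 1 ≤ ‖z‖ := by nlinarith [norm_nonneg z]
  have h1 : ‖z‖ * ‖r.coeff k‖ / 2 ≤ ‖(r * (Polynomial.X - Polynomial.C z)).coeff k‖ := by
    rcases k with _ | k
    · rw [coeff_mul_X_sub_zero, norm_neg, norm_mul]
      have : 0 ≤ ‖z‖ * ‖r.coeff 0‖ := by positivity
      linarith
    · rw [coeff_mul_X_sub]
      have a1 : ‖r.coeff k‖ ≤ 1 / 2 * ‖r.coeff (k + 1)‖ :=
        (h k (by omega)).trans (mul_le_mul_of_nonneg_right hδ hk)
      have a2 := norm_sub_norm_le (z * r.coeff (k + 1)) (r.coeff k)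
      rw [norm_sub_rev] at a2
      rw [norm_mul] at a2
      have a3 : ‖r.coeff (k + 1)‖ ≤ ‖z‖ * ‖r.coeff (k + 1)‖ := le_mul_of_one_le_left hk hz1
      linarith
  intro b hb
  have h2 : ‖(r * (Polynomial.X - Polynomial.C z)).coeff b‖ ≤
      (δ + δ') * (‖z‖ * ‖r.coeff k‖) := by
    have a1 : ‖z‖ * ‖r.coeff b‖ ≤ ‖z‖ * (δ * ‖r.coeff k‖) :=
      mul_le_mul_of_nonneg_left (h b hb) (norm_nonneg _)
    rcases b with _ | b
    · rw [coeff_mul_X_sub_zero, norm_neg, norm_mul]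
      have : 0 ≤ δ' * (‖z‖ * ‖r.coeff k‖) := by positivity
      linarith
    · rw [coeff_mul_X_sub]
      have a2 : ‖r.coeff b‖ ≤ δ' * (‖z‖ * ‖r.coeff k‖) := by
        refine (hall b).trans ?_
        calc ‖r.coeff k‖ = 1 * ‖r.coeff k‖ := (one_mul _).symm
          _ ≤ (δ' * ‖z‖) * ‖r.coeff k‖ := mul_le_mul_of_nonneg_right hz2 hk
          _ = _ := by ring
      calc ‖r.coeff b - z * r.coeff (b + 1)‖ ≤ ‖r.coeff b‖ + ‖z * r.coeff (b + 1)‖ :=
            norm_sub_le _ _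
        _ = ‖r.coeff b‖ + ‖z‖ * ‖r.coeff (b + 1)‖ := by rw [norm_mul]
        _ ≤ _ := by linarith
  calc ‖(r * (Polynomial.X - Polynomial.C z)).coeff b‖ ≤ (δ + δ') * (‖z‖ * ‖r.coeff k‖) := h2
    _ = 2 * (δ + δ') * (‖z‖ * ‖r.coeff k‖ / 2) := by ring
    _ ≤ _ := by
      apply mul_le_mul_of_nonneg_left h1
      positivity

theorem dom_prod (δ' : ℝ) (h0 : 0 < δ') (s : Multiset ℂ)
    (hs : ∀ z ∈ s, ‖z‖ ≤ δ' ∨ δ'⁻¹ ≤ ‖z‖) (hsm : 4 ^ (Multiset.card s) * δ' ≤ 1 / 2) :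
    ∃ k, ∀ b, b ≠ k →
      ‖((s.map fun z => Polynomial.X - Polynomial.C z).prod).coeff b‖ ≤
        4 ^ (Multiset.card s) * δ' *
          ‖((s.map fun z => Polynomial.X - Polynomial.C z).prod).coeff k‖ := by
  induction s using Multiset.induction_on with
  | empty =>
    refine ⟨0, fun b hb => ?_⟩
    simp only [Multiset.map_zero, Multiset.prod_zero]
    rw [Polynomial.coeff_one, if_neg hb, norm_zero]
    positivity
  | cons z s ih =>
    rw [Multiset.card_cons, pow_succ] at hsm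
    have hp : (0 : ℝ) < 4 ^ (Multiset.card s) := by positivity
    have hp1 : (1 : ℝ) ≤ 4 ^ (Multiset.card s) := one_le_pow₀ (by norm_num)
    have hsm' : 4 ^ (Multiset.card s) * δ' ≤ 1 / 2 := by nlinarith
    have hδ' : δ' ≤ 1 / 2 := by nlinarith
    obtain ⟨k, hk⟩ := ih (fun w hw => hs w (Multiset.mem_cons_of_mem hw)) hsm'
    rw [Multiset.map_cons, Multiset.prod_cons, mul_comm (Polynomial.X - Polynomial.C z),
      Multiset.card_cons, pow_succ]
    have hcmp : 2 * (4 ^ (Multiset.card s) * δ' + δ') ≤ 4 ^ (Multiset.card s) * 4 * δ' := by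
      nlinarith
    rcases hs z (Multiset.mem_cons_self _ _) with hz | hz
    · refine ⟨k + 1, fun b hb => ?_⟩
      exact (dom_small (by positivity) h0.le hsm' hδ' hk hz b hb).trans
        (mul_le_mul_of_nonneg_right hcmp (norm_nonneg _))
    · refine ⟨k, fun b hb => ?_⟩
      exact (dom_large (by positivity) h0 hsm' hδ' hk hz b hb).trans
        (mul_le_mul_of_nonneg_right hcmp (norm_nonneg _))

theorem ann : S_ann := by
  intro d
  refine ⟨2 * d + 2, ?_⟩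
  intro q M b₁ b₂ hM hd hup hne h1 h2
  by_contra hcon
  push Not at hcon
  set B : ℝ := M ^ (2 * d + 2) * 2 ^ (2 * d + 2) with hB
  have hM0 : 0 < M := by linarith
  have hB1 : 4 * 4 ^ d * M ^ 2 ≤ B := by
    have e1 : (2 : ℝ) ^ (2 * d + 2) = 4 * 4 ^ d := by
      rw [pow_add, pow_mul]; norm_num; ring
    have e2 : M ^ 2 ≤ M ^ (2 * d + 2) := pow_le_pow_right₀ hM (by omega)
    rw [hB, e1, mul_comm]
    exact mul_le_mul_of_nonneg_right e2 (by positivity)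
  have h4 : (1 : ℝ) ≤ 4 ^ d := one_le_pow₀ (by norm_num)
  have hBpos : 0 < B := by positivity
  have hM2 : 1 ≤ M ^ 2 := one_le_pow₀ hM
  have hcard : Multiset.card q.roots ≤ d := (Polynomial.card_roots' q).trans hd
  have hpc : (4 : ℝ) ^ (Multiset.card q.roots) ≤ 4 ^ d :=
    pow_le_pow_right₀ (by norm_num) hcard
  have hsm : 4 ^ (Multiset.card q.roots) * B⁻¹ ≤ 1 / 2 := by
    rw [← div_eq_mul_inv, div_le_iff₀ hBpos]
    nlinarith
  have hq0 : q ≠ 0 := by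
    intro h
    rw [h, Polynomial.coeff_zero, norm_zero] at h1
    have : 0 < M⁻¹ := by positivity
    linarith
  obtain ⟨k, hk⟩ := dom_prod B⁻¹ (by positivity) q.roots (fun z hz => by
    rw [inv_inv]
    have hr : q.eval z = 0 := (Polynomial.mem_roots hq0).1 hz
    by_cases hle : B⁻¹ ≤ ‖z‖
    · exact Or.inr (hcon z hr hle).le
    · exact Or.inl (not_le.1 hle).le) hsm
  have hfac : q = Polynomial.C q.leadingCoeff *
      (q.roots.map fun z => Polynomial.X - Polynomial.C z).prod :=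
    (IsAlgClosed.splits q).eq_prod_roots
  have hk' : ∀ b, b ≠ k → ‖q.coeff b‖ ≤ 4 ^ (Multiset.card q.roots) * B⁻¹ * ‖q.coeff k‖ := by
    intro b hb
    have e : ∀ b, ‖q.coeff b‖ = ‖q.leadingCoeff‖ *
        ‖((q.roots.map fun z => Polynomial.X - Polynomial.C z).prod).coeff b‖ := by
      intro b
      conv_lhs => rw [hfac]
      rw [Polynomial.coeff_C_mul, norm_mul]
    rw [e b, e k]
    have := mul_le_mul_of_nonneg_left (hk b hb) (norm_nonneg q.leadingCoeff)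
    linarith
  have hfin : ∀ b, b ≠ k → M⁻¹ ≤ ‖q.coeff b‖ → False := by
    intro b hb hM'
    have a1 := hM'.trans (hk' b hb)
    have a2 : 4 ^ (Multiset.card q.roots) * B⁻¹ * ‖q.coeff k‖ ≤ 4 ^ d * B⁻¹ * M := by
      apply mul_le_mul _ (hup k) (norm_nonneg _) (by positivity)
      exact mul_le_mul_of_nonneg_right hpc (by positivity)
    have a3 : M⁻¹ ≤ 4 ^ d * B⁻¹ * M := a1.trans a2
    have a4 : M⁻¹ * (B * M) ≤ 4 ^ d * B⁻¹ * M * (B * M) :=
      mul_le_mul_of_nonneg_right a3 (by positivity)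
    have a5 : M⁻¹ * (B * M) = B := by field_simp
    have a6 : 4 ^ d * B⁻¹ * M * (B * M) = 4 ^ d * M ^ 2 := by field_simp
    rw [a5, a6] at a4
    have : (0 : ℝ) < 4 ^ d * M ^ 2 := by positivity
    nlinarith
  by_cases hb : b₁ = k
  · exact hfin b₂ (fun h => hne (hb.trans h.symm)) h2
  · exact hfin b₁ hb h1

end Pool.Agent.Q206.EG
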