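import Pool.Agent.Q206.EG.Tool

/-!
# DOM
-/

set_option autoImplicit false

namespace Pool.Agent.Q206.EG

open MvPolynomial Filter Topology Metric Pool.Agent.W996.EC Pool.Agent.Q72.EG

theorem dom : S_dom := by
  classical
  intro n P H hP hj
  set j0 := Nat.find hj with hj0
  have h0 : ¬ P ∣ cf H j0 := Nat.find_spec hj
  have hlt : ∀ j, j < j0 → P ∣ cf H j := fun j hj' => by
    have := Nat.find_min hj hj'
    exact not_not.1 this
  refine ⟨cf H j0, h0, fun R' hR' D => ?_⟩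
  set N := (optionEquivLeft ℂ (Fin n) H).natDegree with hN
  have hjN : j0 < N + 1 := by
    by_contra hcon
    apply h0
    have : cf H j0 = 0 := by
      unfold cf
      apply Polynomial.coeff_eq_zero_of_natDegree_lt
      omega
    rw [this]
    exact dvd_zero _
  obtain ⟨D1, hD1, hup⟩ := pb_fin (Finset.range (N + 1)) (fun j => cf H j) D
  obtain ⟨D2, hD2, hlo⟩ := lbd hR' D
  obtain ⟨s, hs, hc⟩ := const_le (N + 1 : ℝ)
  refine ⟨max 2 (s + D1 + D2 + 1), by
    have := le_max_left (2 : ℝ) (s + D1 + D2 + 1)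
    linarith, fun T hT x Y hA hzero => ?_⟩
  have hT2 : (2 : ℝ) ≤ T := (le_max_left _ _).trans hT
  have hT0 : (0 : ℝ) < T := by linarith
  have hT1 : (1 : ℝ) < T := by linarith
  obtain ⟨hxP, hY0, hx, hR, hY⟩ := hA
  have hYle : ‖Y‖ ≤ T ^ (-(s + D1 + D2 + 1)) :=
    hY.trans (Real.rpow_le_rpow_of_exponent_le hT1.le (neg_le_neg (le_max_right _ _)))
  have hYpos : 0 < ‖Y‖ := norm_pos_iff.2 hY0
  have hY1 : ‖Y‖ ≤ 1 := hYle.trans (by
    rw [Real.rpow_neg hT0.le]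
    apply inv_le_one_of_one_le₀
    exact Real.one_le_rpow hT1.le (by linarith))
  rw [eval_oe_sum, ← hN] at hzero
  rw [← Finset.add_sum_erase _ _ (Finset.mem_range.2 hjN)] at hzero
  have h1 : eval x (cf H j0) * Y ^ j0 =
      -∑ j ∈ (Finset.range (N + 1)).erase j0, eval x (cf H j) * Y ^ j :=
    eq_neg_of_add_eq_zero_left hzero
  have h2 : ‖eval x (cf H j0)‖ * ‖Y‖ ^ j0 ≤ (N + 1) * (T ^ D1 * ‖Y‖ ^ (j0 + 1)) := by
    rw [← norm_pow, ← norm_mul, h1, norm_neg]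
    refine (norm_sum_le _ _).trans ?_
    have : ∀ j ∈ (Finset.range (N + 1)).erase j0,
        ‖eval x (cf H j) * Y ^ j‖ ≤ T ^ D1 * ‖Y‖ ^ (j0 + 1) := by
      intro j hj
      obtain ⟨hne, hmem⟩ := Finset.mem_erase.1 hj
      rw [norm_mul, norm_pow]
      rcases lt_or_gt_of_ne hne with hl | hg
      · rw [eval_zero_of_dvd (hlt j hl) hxP, norm_zero, zero_mul]
        positivity
      · have a1 := hup T hT2 x hx j hmem
        have a2 : ‖Y‖ ^ j ≤ ‖Y‖ ^ (j0 + 1) := pow_le_pow_of_le_one hYpos.le hY1 hg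
        exact mul_le_mul a1 a2 (by positivity) (by positivity)
    refine (Finset.sum_le_card_nsmul _ _ _ this).trans ?_
    rw [nsmul_eq_mul]
    refine mul_le_mul_of_nonneg_right ?_ (by positivity)
    have : ((Finset.range (N + 1)).erase j0).card ≤ N + 1 :=
      (Finset.card_le_card (Finset.erase_subset _ _)).trans (by simp)
    calc (((Finset.range (N + 1)).erase j0).card : ℝ) ≤ ((N + 1 : ℕ) : ℝ) := by exact_mod_cast this
      _ = N + 1 := by push_cast; ring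
  have h3 : ‖eval x (cf H j0)‖ ≤ (N + 1) * T ^ D1 * ‖Y‖ := by
    have hp : 0 < ‖Y‖ ^ j0 := by positivity
    apply le_of_mul_le_mul_right _ hp
    calc ‖eval x (cf H j0)‖ * ‖Y‖ ^ j0 ≤ (N + 1) * (T ^ D1 * ‖Y‖ ^ (j0 + 1)) := h2
      _ = (N + 1) * T ^ D1 * ‖Y‖ * ‖Y‖ ^ j0 := by ring
  have h4 := hlo T hT2 x hx hR
  have h5 : T ^ (-D2) ≤ T ^ s * T ^ D1 * T ^ (-(s + D1 + D2 + 1)) := by
    refine h4.trans (h3.trans ?_)
    have := hc T hT2
    gcongr
  rw [← Real.rpow_add hT0, ← Real.rpow_add hT0, Real.rpow_le_rpow_left_iff hT1] at h5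
  linarith

end Pool.Agent.Q206.EG
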