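import Pool.Agent.Q206.EG.Tool

/-!
# Expansion of `A(x, Y, Z)`
-/

set_option autoImplicit false

namespace Pool.Agent.Q206.EG

open MvPolynomial Filter Topology Metric Pool.Agent.W996.EC Pool.Agent.Q72.EG

/-- the set of the exponents with a coefficient not divisible by `P` -/
theorem exists_F {n : ℕ} (P : MvPolynomial (Fin n) ℂ)
    (A : Polynomial (MvPolynomial (Option (Fin n)) ℂ)) :
    ∃ F : Finset (ℕ × ℕ), (∀ e, e ∈ F ↔ ¬ P ∣ cf (A.coeff e.1) e.2) ∧
      ∀ (S : Type) [CommRing S] [Algebra ℂ S] (x : Fin n → S) (Y Z : S),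
        (∀ g, P ∣ g → aeval x g = 0) →
        (A.map (aeval (oe Y x) : MvPolynomial (Option (Fin n)) ℂ →ₐ[ℂ] S).toRingHom).eval Z =
          ∑ e ∈ F, aeval x (cf (A.coeff e.1) e.2) * Y ^ e.2 * Z ^ e.1 := by
  classical
  set B := A.natDegree with hB
  set J := (Finset.range (B + 1)).sup
    (fun b => (optionEquivLeft ℂ (Fin n) (A.coeff b)).natDegree) with hJ
  have hJle : ∀ b ∈ Finset.range (B + 1),
      (optionEquivLeft ℂ (Fin n) (A.coeff b)).natDegree ≤ J := fun b hb =>
    Finset.le_sup (f := fun b => (optionEquivLeft ℂ (Fin n) (A.coeff b)).natDegree) hb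
  have hz : ∀ e : ℕ × ℕ, ¬ P ∣ cf (A.coeff e.1) e.2 →
      e ∈ Finset.range (B + 1) ×ˢ Finset.range (J + 1) := by
    intro e he
    by_contra hcon
    apply he
    rw [Finset.mem_product, not_and_or, Finset.mem_range, Finset.mem_range] at hcon
    have h0 : cf (A.coeff e.1) e.2 = 0 := by
      by_cases h1 : e.1 < B + 1
      · have h2 : J < e.2 := by
          rcases hcon with h | h
          · exact absurd h1 h
          · omega
        unfold cf
        apply Polynomial.coeff_eq_zero_of_natDegree_lt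
        exact (hJle _ (Finset.mem_range.2 h1)).trans_lt h2
      · have : A.coeff e.1 = 0 := Polynomial.coeff_eq_zero_of_natDegree_lt (by omega)
        rw [this]
        unfold cf
        simp
    rw [h0]
    exact dvd_zero _
  refine ⟨(Finset.range (B + 1) ×ˢ Finset.range (J + 1)).filter
    (fun e => ¬ P ∣ cf (A.coeff e.1) e.2), ?_, ?_⟩
  · intro e
    rw [Finset.mem_filter]
    exact ⟨fun h => h.2, fun h => ⟨hz e h, h⟩⟩
  · intro S _ _ x Y Z hx
    rw [Polynomial.eval_map, Polynomial.eval₂_eq_sum_range, ← hB]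
    rw [Finset.sum_filter_of_ne]
    · rw [Finset.sum_product]
      refine Finset.sum_congr rfl fun b hb => ?_
      change aeval (oe Y x) (A.coeff b) * Z ^ b = _
      rw [aeval_oe_sum, Finset.sum_mul]
      refine Finset.sum_subset (Finset.range_subset_range.2
        (Nat.succ_le_succ (hJle b hb))) ?_
      intro j _ hj
      have : cf (A.coeff b) j = 0 := by
        unfold cf
        apply Polynomial.coeff_eq_zero_of_natDegree_lt
        rw [Finset.mem_range] at hj
        omega
      rw [this, map_zero, zero_mul, zero_mul]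
    · intro e _ hne hdvd
      apply hne
      rw [hx _ hdvd, zero_mul, zero_mul]

theorem exists_FC {n : ℕ} (P : MvPolynomial (Fin n) ℂ)
    (A : Polynomial (MvPolynomial (Option (Fin n)) ℂ)) (F : Finset (ℕ × ℕ))
    (h : ∀ (S : Type) [CommRing S] [Algebra ℂ S] (x : Fin n → S) (Y Z : S),
        (∀ g, P ∣ g → aeval x g = 0) →
        (A.map (aeval (oe Y x) : MvPolynomial (Option (Fin n)) ℂ →ₐ[ℂ] S).toRingHom).eval Z =
          ∑ e ∈ F, aeval x (cf (A.coeff e.1) e.2) * Y ^ e.2 * Z ^ e.1)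
    (x : Fin n → ℂ) (Y Z : ℂ) (hx : eval x P = 0) :
    (A.map (eval (oe Y x))).eval Z =
      ∑ e ∈ F, eval x (cf (A.coeff e.1) e.2) * Y ^ e.2 * Z ^ e.1 := by
  have h1 := h ℂ x Y Z (fun g hg => by
    rw [MvPolynomial.aeval_eq_eval]
    exact eval_zero_of_dvd hg hx)
  simp only [MvPolynomial.aeval_eq_eval] at h1
  exact h1

theorem prod_not_dvd {n : ℕ} {ι : Type} {P : MvPolynomial (Fin n) ℂ} (hP : Irreducible P)
    (F : Finset ι) (g : ι → MvPolynomial (Fin n) ℂ) (h : ∀ i ∈ F, ¬ P ∣ g i) :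
    ¬ P ∣ ∏ i ∈ F, g i := by
  intro hd
  have hp : Prime P := hP.prime
  obtain ⟨i, hi, hdi⟩ := hp.exists_mem_finset_dvd hd
  exact h i hi hdi

end Pool.Agent.Q206.EG
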