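import Pool.Agent.Q72.EG.Stm2
import Pool.Agent.Q206.EG.Exp
import Pool.Agent.Q206.EG.AlgPoly

/-!
# FIN
-/

set_option autoImplicit false

namespace Pool.Agent.Q206.EG

open MvPolynomial Filter Topology Metric Pool.Agent.W996.EC Pool.Agent.Q72.EG

/-- an algebraic element satisfies a relation with coefficients not divisible by `P` -/
theorem alg_rel {n : ℕ} {E : Type} [Field E] [Algebra ℂ E] (P : MvPolynomial (Fin n) ℂ)
    (x : Fin n → E) (hx : ∀ g : MvPolynomial (Fin n) ℂ, P ∣ g → aeval x g = 0) (Y f : E)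
    (hf : IsAlgebraic (IntermediateField.adjoin ℂ (Set.range (oe Y x))) f) :
    ∃ (A : Polynomial (MvPolynomial (Option (Fin n)) ℂ)) (F : Finset (ℕ × ℕ)),
      (∀ e, e ∈ F ↔ ¬ P ∣ cf (A.coeff e.1) e.2) ∧ F.Nonempty ∧
      (A.map (aeval (oe Y x) : MvPolynomial (Option (Fin n)) ℂ →ₐ[ℂ] E).toRingHom).eval f = 0 ∧
      ∑ e ∈ F, aeval x (cf (A.coeff e.1) e.2) * Y ^ e.2 * f ^ e.1 = 0 := by
  obtain ⟨A, ⟨b, hb⟩, hA⟩ := alg_poly (oe Y x) f hf
  obtain ⟨F, hF, hev⟩ := exists_F P A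
  refine ⟨A, F, hF, ?_, hA, ?_⟩
  · by_contra hcon
    rw [Finset.not_nonempty_iff_eq_empty] at hcon
    apply hb
    rw [aeval_oe_sum]
    refine Finset.sum_eq_zero fun j _ => ?_
    have : P ∣ cf (A.coeff b) j := by
      by_contra h
      have := (hF (b, j)).2 h
      rw [hcon] at this
      exact absurd this (Finset.notMem_empty _)
    rw [hx _ this, zero_mul]
  · rw [← hev E x Y f hx]
    exact hA

theorem slope_eq {r a b c d : ℝ} (hne : b ≠ d) (h1 : a + r * b ≤ c + r * d)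
    (h2 : c + r * d ≤ a + r * b) : r = -((a - c) / (b - d)) := by
  have h3 : a + r * b = c + r * d := le_antisymm h1 h2
  have h4 : b - d ≠ 0 := sub_ne_zero.2 hne
  field_simp
  linarith

theorem fin (h : S_val) : S_fin := by
  classical
  intro n E _ _ P x y
  have key : ∀ (i0 : Fin n) (ε : ℤ) (l : Fin n), ∃ S : Set ℝ, S.Finite ∧
      ∀ G : Gen n E, G.P = P → G.x = x → G.y = y → G.i0 = i0 → G.ε = ε → G.a l ∈ S := by
    intro i0 ε l
    by_cases hex : ∃ G : Gen n E, G.P = P ∧ G.x = x ∧ G.y = y ∧ G.i0 = i0 ∧ G.ε = ε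
    · obtain ⟨G0, g1, g2, g3, g4, g5⟩ := hex
      have hx : ∀ g : MvPolynomial (Fin n) ℂ, P ∣ g → aeval x g = 0 := by
        intro g hg
        rw [← g2, G0.hx, g1]
        exact hg
      have halg := G0.halg l
      rw [g2, g3, g4, g5] at halg
      obtain ⟨A, F, hF, hFne, -, hsum⟩ := alg_rel P x hx _ _ halg
      refine ⟨((F ×ˢ F).image (fun p : (ℕ × ℕ) × (ℕ × ℕ) =>
        -(((p.1.2 : ℝ) - p.2.2) / ((p.1.1 : ℝ) - p.2.1))) : Finset ℝ), Finset.finite_toSet _, ?_⟩
      intro G e1 e2 e3 e4 e5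
      have hsum' : ∑ e ∈ F.image Prod.swap, aeval x (cf (A.coeff e.2) e.1) *
          (y i0 ^ ε) ^ e.1 * (y l) ^ e.2 = 0 := by
        rw [Finset.sum_image (fun a _ b _ hab => Prod.swap_injective hab)]
        exact hsum
      have hv1 : ∀ e ∈ F.image Prod.swap,
          G.O.valuation (aeval x (cf (A.coeff e.2) e.1)) = 1 := by
        intro e he
        obtain ⟨e', he', rfl⟩ := Finset.mem_image.1 he
        rw [← e2]
        apply G.hO
        rw [e1]
        exact (hF e').1 he'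
      have hY : G.O.valuation (y i0 ^ ε) < 1 := by
        have := G.hY
        rwa [e3, e4, e5] at this
      have hb : G.O.valuation (y l) ^ G.N = G.O.valuation (y i0 ^ ε) ^ (G.b l) := by
        have := G.hb l
        rwa [e3, e4, e5] at this
      have hy : ∀ l, y l ≠ 0 := by
        intro l
        have := G.hy l
        rwa [e3] at this
      obtain ⟨a1, h1, a2, h2, hne, hmin⟩ := h E G.O (F.image Prod.swap)
        (fun e => aeval x (cf (A.coeff e.2) e.1)) (y i0 ^ ε) (y l) G.N (G.b l) (hFne.image _) hv1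
        (zpow_ne_zero _ (hy i0)) (hy l) hY G.hN hb hsum'
      obtain ⟨f1, hf1, rfl⟩ := Finset.mem_image.1 h1
      obtain ⟨f2, hf2, rfl⟩ := Finset.mem_image.1 h2
      rw [Finset.coe_image, Set.mem_image]
      refine ⟨(f1, f2), Finset.mem_coe.2 (Finset.mem_product.2 ⟨hf1, hf2⟩), ?_⟩
      have q1 := (hmin _ h2).1
      have q2 := (hmin _ h1).2
      simp only [Prod.fst_swap, Prod.snd_swap] at q1 q2 hne
      exact (slope_eq (by exact_mod_cast hne) q1 q2).symm
    · push Not at hex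
      exact ⟨∅, Set.finite_empty, fun G a1 a2 a3 a4 a5 => absurd a5 (hex G a1 a2 a3 a4)⟩
  choose S hS hGS using key
  have hfin : Set.Finite (⋃ i0 : Fin n, ⋃ ε ∈ ({1, -1} : Set ℤ),
      Set.pi Set.univ (fun l => S i0 ε l)) := by
    refine Set.finite_iUnion fun i0 => ?_
    refine Set.Finite.biUnion (by simp) fun ε _ => ?_
    exact Set.Finite.pi fun l => hS i0 ε l
  refine hfin.subset ?_
  rintro a ⟨G, g1, g2, g3, rfl⟩
  rw [Set.mem_iUnion]
  refine ⟨G.i0, ?_⟩
  rw [Set.mem_iUnion₂]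
  refine ⟨G.ε, ?_, ?_⟩
  · rcases G.hε with h | h <;> simp [h]
  · intro l _
    exact hGS G.i0 G.ε l G g1 g2 g3 rfl rfl

end Pool.Agent.Q206.EG
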