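import Pool.Agent.Q206.EG.Exp

/-!
# NEWT
-/

set_option autoImplicit false

namespace Pool.Agent.Q206.EG

open MvPolynomial Filter Topology Metric Pool.Agent.W996.EC Pool.Agent.Q72.EG

/-- the normalised polynomial -/
noncomputable def qp (F : Finset (ℕ × ℕ)) (t : ℕ × ℕ → ℂ) : Polynomial ℂ :=
  ∑ e ∈ F, Polynomial.monomial e.1 (t e)

theorem qp_eval (F : Finset (ℕ × ℕ)) (t : ℕ × ℕ → ℂ) (z : ℂ) :
    (qp F t).eval z = ∑ e ∈ F, t e * z ^ e.1 := by
  unfold qp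
  rw [Polynomial.eval_finsetSum]
  exact Finset.sum_congr rfl fun e _ => Polynomial.eval_monomial

theorem qp_coeff (F : Finset (ℕ × ℕ)) (t : ℕ × ℕ → ℂ) (b : ℕ) :
    (qp F t).coeff b = ∑ e ∈ F.filter (fun e => e.1 = b), t e := by
  unfold qp
  rw [Polynomial.finsetSum_coeff, Finset.sum_filter]
  exact Finset.sum_congr rfl fun e _ => Polynomial.coeff_monomial

theorem qp_deg (F : Finset (ℕ × ℕ)) (t : ℕ × ℕ → ℂ) :
    (qp F t).natDegree ≤ F.sup Prod.fst := by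
  unfold qp
  refine Polynomial.natDegree_sum_le_of_forall_le _ _ fun e he => ?_
  exact (Polynomial.natDegree_monomial_le _).trans (Finset.le_sup (f := Prod.fst) he)

theorem norm_coeff_le (F : Finset (ℕ × ℕ)) (t : ℕ × ℕ → ℂ) (C : ℝ) (hC : 0 ≤ C)
    (h : ∀ e ∈ F, ‖t e‖ ≤ C) (b : ℕ) : ‖(qp F t).coeff b‖ ≤ F.card * C := by
  rw [qp_coeff]
  refine (norm_sum_le _ _).trans ?_
  refine (Finset.sum_le_card_nsmul _ _ C fun e he => h e (Finset.mem_filter.1 he).1).trans ?_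
  rw [nsmul_eq_mul]
  refine mul_le_mul_of_nonneg_right ?_ hC
  exact_mod_cast Finset.card_le_card (Finset.filter_subset _ _)

theorem norm_coeff_ge (F : Finset (ℕ × ℕ)) (t : ℕ × ℕ → ℂ) (C c : ℝ) (hC : 0 ≤ C) (b j : ℕ)
    (hbj : (b, j) ∈ F) (h : ∀ e ∈ F, e.1 = b → e.2 ≠ j → ‖t e‖ ≤ C) (hc : c ≤ ‖t (b, j)‖) :
    c - F.card * C ≤ ‖(qp F t).coeff b‖ := by
  classical
  have hmem : (b, j) ∈ F.filter (fun e => e.1 = b) := Finset.mem_filter.2 ⟨hbj, rfl⟩
  rw [qp_coeff, ← Finset.add_sum_erase _ _ hmem]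
  have h1 : ‖∑ e ∈ (F.filter (fun e => e.1 = b)).erase (b, j), t e‖ ≤ F.card * C := by
    refine (norm_sum_le _ _).trans ?_
    refine (Finset.sum_le_card_nsmul _ _ C ?_).trans ?_
    · intro e he
      obtain ⟨hne, hm⟩ := Finset.mem_erase.1 he
      obtain ⟨hF, hb⟩ := Finset.mem_filter.1 hm
      exact h e hF hb (fun hj => hne (Prod.ext hb hj))
    · rw [nsmul_eq_mul]
      refine mul_le_mul_of_nonneg_right ?_ hC
      exact_mod_cast Finset.card_le_card ((Finset.erase_subset _ _).trans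
        (Finset.filter_subset _ _))
  have h2 := norm_sub_norm_le (t (b, j)) (-∑ e ∈ (F.filter (fun e => e.1 = b)).erase (b, j), t e)
  rw [norm_neg, sub_neg_eq_add] at h2
  linarith

theorem newt (hann : S_ann) : S_newt := by
  classical
  intro n P A r b₁ j₁ b₂ j₂ hP hb h1 h2 hmin
  obtain ⟨F, hF, hev⟩ := exists_F P A
  obtain ⟨g, hg⟩ : ∃ g : ℕ × ℕ → MvPolynomial (Fin n) ℂ, g = fun e => cf (A.coeff e.1) e.2 :=
    ⟨_, rfl⟩
  have hge : ∀ e, g e = cf (A.coeff e.1) e.2 := fun e => by rw [hg]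
  have hnd : ¬ P ∣ ∏ e ∈ F, g e := prod_not_dvd hP F g (fun e he => by
    rw [hge]; exact (hF e).1 he)
  refine ⟨∏ e ∈ F, g e, hnd, ?_⟩
  intro R' hR' D
  obtain ⟨D1, hD1, htwo⟩ := two F g R' (fun e he => (Finset.dvd_prod_of_mem g he).trans hR') D
  obtain ⟨s, hs, hc⟩ := const_le (F.card : ℝ)
  obtain ⟨N, hN⟩ := hann (F.sup Prod.fst)
  refine ⟨N * (D1 + s + 2), max 2 (s + 2 * D1 + 1), by
    have := le_max_left (2 : ℝ) (s + 2 * D1 + 1)
    linarith, ?_⟩
  intro T hT x Y hA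
  have hT2 : (2 : ℝ) ≤ T := (le_max_left _ _).trans hT
  have hT0 : (0 : ℝ) < T := by linarith
  have hT1 : (1 : ℝ) < T := by linarith
  have hlT : 0 < Real.log T := Real.log_pos hT1
  obtain ⟨hxP, hY0, hx, hR, hY⟩ := hA
  have hYpos : 0 < ‖Y‖ := norm_pos_iff.2 hY0
  have hYle : ‖Y‖ ≤ T ^ (-(s + 2 * D1 + 1)) :=
    hY.trans (Real.rpow_le_rpow_of_exponent_le hT1.le (neg_le_neg (le_max_right _ _)))
  have hY1 : ‖Y‖ ≤ 1 := hYle.trans (by
    rw [Real.rpow_neg hT0.le]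
    apply inv_le_one_of_one_le₀
    exact Real.one_le_rpow hT1.le (by linarith))
  set μ : ℝ := (j₁ : ℝ) + r * b₁ with hμ
  have hμ2 : μ = (j₂ : ℝ) + r * b₂ :=
    le_antisymm ((hmin b₂ j₂ h2).1) ((hmin b₁ j₁ h1).2)
  set ρ : ℝ := ‖Y‖ ^ r with hρ
  have hρ0 : 0 < ρ := Real.rpow_pos_of_pos hYpos _
  obtain ⟨t, ht⟩ : ∃ t : ℕ × ℕ → ℂ, t = fun e =>
      ((‖Y‖ ^ (-μ) : ℝ) : ℂ) * (eval x (g e) * Y ^ e.2 * (ρ : ℂ) ^ e.1) := ⟨_, rfl⟩
  have htn : ∀ e, ‖t e‖ = ‖eval x (g e)‖ * ‖Y‖ ^ ((e.2 : ℝ) + r * e.1 - μ) := by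
    intro e
    rw [ht]
    simp only [norm_mul, norm_pow, Complex.norm_real]
    rw [Real.norm_of_nonneg (Real.rpow_nonneg hYpos.le _), Real.norm_of_nonneg hρ0.le, hρ,
      ← Real.rpow_natCast (‖Y‖ ^ r), ← Real.rpow_mul hYpos.le, ← Real.rpow_natCast ‖Y‖ e.2]
    have : (e.2 : ℝ) + r * e.1 - μ = -μ + e.2 + r * e.1 := by ring
    rw [this, Real.rpow_add hYpos, Real.rpow_add hYpos]
    ring
  have hev2 : ∀ z : ℂ, (qp F t).eval z =
      ((‖Y‖ ^ (-μ) : ℝ) : ℂ) * (A.map (eval (oe Y x))).eval ((ρ : ℂ) * z) := by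
    intro z
    rw [qp_eval, exists_FC P A F hev x Y _ hxP, Finset.mul_sum]
    refine Finset.sum_congr rfl fun e _ => ?_
    rw [ht, mul_pow]
    simp only [hge]
    ring
  have hexp : ∀ e ∈ F, 0 ≤ (e.2 : ℝ) + r * e.1 - μ := by
    intro e he
    have := (hmin e.1 e.2 ((hF e).1 he)).1
    linarith
  set M : ℝ := T ^ (D1 + s + 1) with hM
  have hM1 : 1 ≤ M := Real.one_le_rpow hT1.le (by linarith)
  have hup : ∀ b, ‖(qp F t).coeff b‖ ≤ M := by
    intro b
    refine (norm_coeff_le F t (T ^ D1) (by positivity) (fun e he => ?_) b).trans ?_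
    · rw [htn]
      have a1 := (htwo T hT2 x hx hR e he).2
      have a2 : ‖Y‖ ^ ((e.2 : ℝ) + r * e.1 - μ) ≤ 1 :=
        Real.rpow_le_one hYpos.le hY1 (hexp e he)
      calc _ ≤ T ^ D1 * 1 := mul_le_mul a1 a2 (by positivity) (by positivity)
        _ = T ^ D1 := mul_one _
    · calc (F.card : ℝ) * T ^ D1 ≤ T ^ s * T ^ D1 :=
            mul_le_mul_of_nonneg_right (hc T hT2) (by positivity)
        _ = T ^ (s + D1) := (Real.rpow_add hT0 _ _).symm
        _ ≤ M := Real.rpow_le_rpow_of_exponent_le hT1.le (by linarith)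
  have hlow : ∀ b j : ℕ, ¬ P ∣ cf (A.coeff b) j → μ = (j : ℝ) + r * b →
      M⁻¹ ≤ ‖(qp F t).coeff b‖ := by
    intro b j hbj hμj
    have hbF : (b, j) ∈ F := (hF (b, j)).2 hbj
    have hge2 := norm_coeff_ge F t (T ^ D1 * ‖Y‖) (T ^ (-D1)) (by positivity) b j hbF
      (fun e he hb hj => by
        rw [htn]
        have a1 := (htwo T hT2 x hx hR e he).2
        have a0 := hexp e he
        have a3 : 1 ≤ (e.2 : ℝ) + r * e.1 - μ := by
          rw [hb, hμj] at a0 ⊢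
          have a4 : (j : ℝ) ≤ e.2 := by linarith
          have a5 : j + 1 ≤ e.2 := by
            have : j ≤ e.2 := by exact_mod_cast a4
            omega
          have a6 : (j : ℝ) + 1 ≤ e.2 := by exact_mod_cast a5
          linarith
        have a2 : ‖Y‖ ^ ((e.2 : ℝ) + r * e.1 - μ) ≤ ‖Y‖ := by
          calc _ ≤ ‖Y‖ ^ (1 : ℝ) := Real.rpow_le_rpow_of_exponent_ge hYpos hY1 a3
            _ = ‖Y‖ := Real.rpow_one _
        exact mul_le_mul a1 a2 (by positivity) (by positivity))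
      (by
        rw [htn]
        have : ((b, j).2 : ℝ) + r * ((b, j).1 : ℝ) - μ = 0 := by
          simp only []
          rw [hμj]; ring
        rw [this, Real.rpow_zero, mul_one]
        exact (htwo T hT2 x hx hR _ hbF).1)
    refine le_trans ?_ hge2
    have e1 : (F.card : ℝ) * (T ^ D1 * ‖Y‖) ≤ T ^ (-D1 - 1) := by
      calc (F.card : ℝ) * (T ^ D1 * ‖Y‖) ≤ T ^ s * (T ^ D1 * T ^ (-(s + 2 * D1 + 1))) := by
            have := hc T hT2
            gcongr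
        _ = T ^ (-D1 - 1) := by
            rw [← Real.rpow_add hT0, ← Real.rpow_add hT0]
            congr 1
            ring
    have e2 : 2 * T ^ (-D1 - 1) ≤ T ^ (-D1) := by
      rw [Real.rpow_sub hT0, Real.rpow_one]
      rw [mul_div_assoc', div_le_iff₀ hT0, mul_comm]
      exact mul_le_mul_of_nonneg_left hT2 (by positivity)
    have e3 : M⁻¹ ≤ T ^ (-D1 - 1) := by
      rw [hM, ← Real.rpow_neg hT0.le]
      apply Real.rpow_le_rpow_of_exponent_le hT1.le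
      linarith
    linarith
  obtain ⟨z, hz, hz1, hz2⟩ := hN (qp F t) M b₁ b₂ hM1 (qp_deg F t) hup hb
    (hlow b₁ j₁ h1 rfl) (hlow b₂ j₂ h2 hμ2)
  have hMN : (0 : ℝ) < M ^ N * 2 ^ N := by positivity
  have hzpos : 0 < ‖z‖ := (inv_pos.2 hMN).trans_le hz1
  have hlogM : Real.log (M ^ N * 2 ^ N) ≤ N * (D1 + s + 2) * Real.log T := by
    rw [Real.log_mul (by positivity) (by positivity), Real.log_pow, Real.log_pow, hM,
      Real.log_rpow hT0]
    have : Real.log 2 ≤ Real.log T := Real.log_le_log (by norm_num) hT2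
    have : (N : ℝ) * Real.log 2 ≤ N * Real.log T :=
      mul_le_mul_of_nonneg_left this (Nat.cast_nonneg _)
    linarith
  refine ⟨(ρ : ℂ) * z, mul_ne_zero (by exact_mod_cast hρ0.ne') (norm_pos_iff.1 hzpos), ?_, ?_⟩
  · have := hev2 z
    rw [hz] at this
    rcases mul_eq_zero.1 this.symm with h | h
    · exfalso
      have : (‖Y‖ ^ (-μ) : ℝ) = 0 := by exact_mod_cast h
      exact (Real.rpow_pos_of_pos hYpos _).ne' this
    · exact h
  · rw [norm_mul, Complex.norm_real, Real.norm_of_nonneg hρ0.le,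
      Real.log_mul hρ0.ne' hzpos.ne', hρ, Real.log_rpow hYpos, add_sub_cancel_left, abs_le]
    constructor
    · have := Real.log_le_log (inv_pos.2 hMN) hz1
      rw [Real.log_inv] at this
      linarith
    · exact (Real.log_le_log hzpos hz2).trans hlogM

end Pool.Agent.Q206.EG
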