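import Pool.Agent.Q206.EG.Exp

/-!
# SLOPE
-/

set_option autoImplicit false

namespace Pool.Agent.Q206.EG

open MvPolynomial Filter Topology Metric Pool.Agent.W996.EC Pool.Agent.Q72.EG

/-- in a vanishing finite sum there are two terms of comparable sizes, the first one is the largest -/
theorem two_terms {ι : Type} [DecidableEq ι] (F : Finset ι) (hF : F.Nonempty) (t : ι → ℂ)
    (hsum : ∑ e ∈ F, t e = 0) (hne : ∀ e ∈ F, t e ≠ 0) :
    ∃ e ∈ F, ∃ e' ∈ F, e ≠ e' ∧ ‖t e'‖ ≤ ‖t e‖ ∧ ‖t e‖ ≤ F.card * ‖t e'‖ := by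
  obtain ⟨e, he, hmax⟩ := F.exists_max_image (fun e => ‖t e‖) hF
  rw [← Finset.add_sum_erase _ _ he] at hsum
  have h1 : t e = -∑ j ∈ F.erase e, t j := eq_neg_of_add_eq_zero_left hsum
  have hne' : (F.erase e).Nonempty := by
    by_contra hcon
    rw [Finset.not_nonempty_iff_eq_empty] at hcon
    rw [hcon, Finset.sum_empty, neg_zero] at h1
    exact hne e he h1
  obtain ⟨e', he', hmax'⟩ := (F.erase e).exists_max_image (fun e => ‖t e‖) hne'
  obtain ⟨hn, hm⟩ := Finset.mem_erase.1 he'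
  refine ⟨e, he, e', hm, hn.symm, hmax e' hm, ?_⟩
  rw [h1, norm_neg]
  refine (norm_sum_le _ _).trans ((Finset.sum_le_card_nsmul _ _ _ hmax').trans ?_)
  rw [nsmul_eq_mul]
  refine mul_le_mul_of_nonneg_right ?_ (norm_nonneg _)
  exact_mod_cast Finset.card_le_card (Finset.erase_subset _ _)

theorem abs_log_le {T D a : ℝ} (hT : 0 < T) (h1 : T ^ (-D) ≤ a) (h2 : a ≤ T ^ D) :
    |Real.log a| ≤ D * Real.log T := by
  have ha : 0 < a := (Real.rpow_pos_of_pos hT _).trans_le h1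
  rw [abs_le]
  constructor
  · have := Real.log_le_log (Real.rpow_pos_of_pos hT _) h1
    rw [Real.log_rpow hT] at this
    linarith
  · have := Real.log_le_log ha h2
    rwa [Real.log_rpow hT] at this

theorem slope_core (F : Finset (ℕ × ℕ)) (hFne : F.Nonempty) (c : ℕ × ℕ → ℂ) (Y Z : ℂ)
    (hY : Y ≠ 0) (hZ : Z ≠ 0) (hsum : ∑ e ∈ F, c e * Y ^ e.2 * Z ^ e.1 = 0) (B s : ℝ)
    (hc : ∀ e ∈ F, c e ≠ 0 ∧ |Real.log ‖c e‖| ≤ B) (hs : Real.log F.card ≤ s)
    (hlY : 2 * B + s < |Real.log ‖Y‖|) :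
    ∃ e ∈ F, ∃ e' ∈ F, |Real.log ‖Z‖ - -(((e.2 : ℝ) - e'.2) / ((e.1 : ℝ) - e'.1)) *
      Real.log ‖Y‖| ≤ 2 * B + s := by
  classical
  have hYn : ‖Y‖ ≠ 0 := norm_ne_zero_iff.2 hY
  have hZn : ‖Z‖ ≠ 0 := norm_ne_zero_iff.2 hZ
  have hB : 0 ≤ B := by
    obtain ⟨e, he⟩ := hFne
    exact (abs_nonneg _).trans (hc e he).2
  have hcardpos : (0 : ℝ) < F.card := by exact_mod_cast hFne.card_pos
  have hs0 : 0 ≤ s := by
    refine le_trans ?_ hs
    apply Real.log_nonneg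
    exact_mod_cast hFne.card_pos
  have hne0 : ∀ e ∈ F, c e * Y ^ e.2 * Z ^ e.1 ≠ 0 := fun e he =>
    mul_ne_zero (mul_ne_zero (hc e he).1 (pow_ne_zero _ hY)) (pow_ne_zero _ hZ)
  obtain ⟨e, he, e', he', hne, hle1, hle2⟩ :=
    two_terms F hFne (fun e => c e * Y ^ e.2 * Z ^ e.1) hsum hne0
  have hlog : ∀ e ∈ F, Real.log ‖c e * Y ^ e.2 * Z ^ e.1‖ =
      Real.log ‖c e‖ + e.2 * Real.log ‖Y‖ + e.1 * Real.log ‖Z‖ := by
    intro e he
    have h0 : ‖c e‖ ≠ 0 := norm_ne_zero_iff.2 (hc e he).1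
    rw [norm_mul, norm_mul, norm_pow, norm_pow, Real.log_mul (mul_ne_zero h0 (pow_ne_zero _ hYn))
      (pow_ne_zero _ hZn), Real.log_mul h0 (pow_ne_zero _ hYn), Real.log_pow,
      Real.log_pow]
  have hpos' : 0 < ‖c e' * Y ^ e'.2 * Z ^ e'.1‖ := norm_pos_iff.2 (hne0 e' he')
  have hpos : 0 < ‖c e * Y ^ e.2 * Z ^ e.1‖ := norm_pos_iff.2 (hne0 e he)
  have l1 := Real.log_le_log hpos' hle1
  have l2 := Real.log_le_log hpos hle2
  rw [Real.log_mul hcardpos.ne' hpos'.ne'] at l2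
  rw [hlog e he, hlog e' he'] at l1 l2
  have c1 := abs_le.1 (hc e he).2
  have c2 := abs_le.1 (hc e' he').2
  generalize Real.log ‖Z‖ = lz at *
  generalize Real.log ‖Y‖ = ly at *
  generalize Real.log ‖c e‖ = ce at *
  generalize Real.log ‖c e'‖ = ce' at *
  have key : |((e.1 : ℝ) - e'.1) * lz + ((e.2 : ℝ) - e'.2) * ly| ≤ 2 * B + s := by
    rw [abs_le]
    constructor
    · nlinarith
    · nlinarith
  have hb : (e.1 : ℝ) - e'.1 ≠ 0 := by
    intro hb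
    rw [hb, zero_mul, zero_add, abs_mul] at key
    have hj : e.2 ≠ e'.2 := by
      intro hj
      apply hne
      have : e.1 = e'.1 := by
        have := sub_eq_zero.1 hb
        exact_mod_cast this
      exact Prod.ext this hj
    have h1 : 1 ≤ |(e.2 : ℝ) - e'.2| := by
      have : (1 : ℤ) ≤ |(e.2 : ℤ) - e'.2| := by
        apply Int.one_le_abs
        omega
      exact_mod_cast this
    have h3 : |ly| ≤ |(e.2 : ℝ) - e'.2| * |ly| := le_mul_of_one_le_left (abs_nonneg _) h1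
    linarith
  have hb1 : 1 ≤ |(e.1 : ℝ) - e'.1| := by
    have : (1 : ℤ) ≤ |(e.1 : ℤ) - e'.1| := by
      apply Int.one_le_abs
      intro h
      apply hb
      exact_mod_cast h
    exact_mod_cast this
  refine ⟨e, he, e', he', ?_⟩
  have h1 : lz - -(((e.2 : ℝ) - e'.2) / ((e.1 : ℝ) - e'.1)) * ly =
      (((e.1 : ℝ) - e'.1) * lz + ((e.2 : ℝ) - e'.2) * ly) / ((e.1 : ℝ) - e'.1) := by
    field_simp
    ring
  rw [h1, abs_div, div_le_iff₀ (by linarith)]
  exact key.trans (le_mul_of_one_le_right (by linarith) hb1)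

theorem slope : S_slope := by
  classical
  intro n P A hP hex
  obtain ⟨F, hF, hev⟩ := exists_F P A
  have hFne : F.Nonempty := by
    obtain ⟨b, j, h⟩ := hex
    exact ⟨(b, j), (hF _).2 h⟩
  obtain ⟨g, hg⟩ : ∃ g : ℕ × ℕ → MvPolynomial (Fin n) ℂ, g = fun e => cf (A.coeff e.1) e.2 :=
    ⟨_, rfl⟩
  have hge : ∀ e, g e = cf (A.coeff e.1) e.2 := fun e => by rw [hg]
  have hnd : ¬ P ∣ ∏ e ∈ F, g e := prod_not_dvd hP F g (fun e he => by
    rw [hge]; exact (hF e).1 he)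
  refine ⟨∏ e ∈ F, g e,
    (F ×ˢ F).image (fun p => -(((p.1.2 : ℝ) - p.2.2) / ((p.1.1 : ℝ) - p.2.1))), hnd, ?_⟩
  intro R' hR' D
  obtain ⟨D1, hD1, htwo⟩ := two F g R' (fun e he => (Finset.dvd_prod_of_mem g he).trans hR') D
  obtain ⟨s, hs, hc⟩ := const_le (F.card : ℝ)
  refine ⟨2 * D1 + s, max 2 (2 * D1 + s + 1), by
    have := le_max_left (2 : ℝ) (2 * D1 + s + 1)
    linarith, ?_⟩
  intro T hT x Y hA Z hZ hroot
  have hT2 : (2 : ℝ) ≤ T := (le_max_left _ _).trans hT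
  have hT0 : (0 : ℝ) < T := by linarith
  have hT1 : (1 : ℝ) < T := by linarith
  have hlT : 0 < Real.log T := Real.log_pos hT1
  obtain ⟨hxP, hY0, hx, hR, hY⟩ := hA
  have hYpos : 0 < ‖Y‖ := norm_pos_iff.2 hY0
  have hlY : Real.log ‖Y‖ ≤ -(2 * D1 + s + 1) * Real.log T := by
    have := Real.log_le_log hYpos hY
    rw [Real.log_rpow hT0] at this
    have h2 := le_max_right (2 : ℝ) (2 * D1 + s + 1)
    nlinarith
  have hroot' := exists_FC P A F hev x Y Z hxP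
  rw [hroot] at hroot'
  have hroot2 : ∑ e ∈ F, eval x (g e) * Y ^ e.2 * Z ^ e.1 = 0 := by
    simp only [hge]
    exact hroot'.symm
  have hcardpos : (0 : ℝ) < F.card := by exact_mod_cast hFne.card_pos
  have l3 : Real.log F.card ≤ s * Real.log T := by
    have := Real.log_le_log hcardpos (hc T hT2)
    rwa [Real.log_rpow hT0] at this
  obtain ⟨e, he, e', he', hfin⟩ := slope_core F hFne (fun e => eval x (g e)) Y Z
    hY0 hZ hroot2 (D1 * Real.log T) (s * Real.log T) (fun e he => by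
      have := htwo T hT2 x hx hR e he
      exact ⟨norm_pos_iff.1 ((Real.rpow_pos_of_pos hT0 _).trans_le this.1),
        abs_log_le hT0 this.1 this.2⟩) l3 (by
      rw [abs_of_nonpos]
      · nlinarith
      · nlinarith)
  refine ⟨-(((e.2 : ℝ) - e'.2) / ((e.1 : ℝ) - e'.1)), ?_, ?_⟩
  · rw [Finset.mem_image]
    exact ⟨(e, e'), Finset.mem_product.2 ⟨he, he'⟩, rfl⟩
  · refine hfin.trans (le_of_eq ?_)
    ring

end Pool.Agent.Q206.EG
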