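import Pool.Agent.Q72.EG.Stm

/-!
# Polynomial bounds at admissible points
-/

set_option autoImplicit false

namespace Pool.Agent.Q206.EG

open MvPolynomial Filter Topology Metric Pool.Agent.W996.EC Pool.Agent.Q72.EG

theorem const_le (c : ℝ) : ∃ s : ℝ, 0 ≤ s ∧ ∀ T : ℝ, 2 ≤ T → c ≤ T ^ s := by
  obtain ⟨k, hk⟩ := pow_unbounded_of_one_lt c (one_lt_two (α := ℝ))
  refine ⟨k, Nat.cast_nonneg k, fun T hT => hk.le.trans ?_⟩
  rw [Real.rpow_natCast]
  gcongr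

/-- polynomial upper bound -/
theorem pb {n : ℕ} (g : MvPolynomial (Fin n) ℂ) (D : ℝ) : ∃ D1 : ℝ, 0 ≤ D1 ∧ ∀ T : ℝ, 2 ≤ T →
    ∀ x : Fin n → ℂ, ‖x‖ ≤ T ^ D → ‖eval x g‖ ≤ T ^ D1 := by
  induction g using MvPolynomial.induction_on with
  | C c =>
    obtain ⟨s, hs, h⟩ := const_le ‖c‖
    exact ⟨s, hs, fun T hT x _ => by rw [eval_C]; exact h T hT⟩
  | add p q hp hq =>
    obtain ⟨a, ha, hp⟩ := hp
    obtain ⟨b, hb, hq⟩ := hq
    refine ⟨max a b + 1, by positivity, fun T hT x hx => ?_⟩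
    have hT0 : (0 : ℝ) < T := by linarith
    have hT1 : (1 : ℝ) ≤ T := by linarith
    rw [map_add, Real.rpow_add hT0, Real.rpow_one]
    calc ‖eval x p + eval x q‖ ≤ ‖eval x p‖ + ‖eval x q‖ := norm_add_le _ _
      _ ≤ T ^ a + T ^ b := add_le_add (hp T hT x hx) (hq T hT x hx)
      _ ≤ T ^ (max a b) + T ^ (max a b) := by
          gcongr
          · exact le_max_left _ _
          · exact le_max_right _ _
      _ = T ^ (max a b) * 2 := by ring
      _ ≤ T ^ (max a b) * T := by gcongr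
  | mul_X p i hp =>
    obtain ⟨a, ha, hp⟩ := hp
    refine ⟨a + max D 0, by positivity, fun T hT x hx => ?_⟩
    have hT0 : (0 : ℝ) < T := by linarith
    have hT1 : (1 : ℝ) ≤ T := by linarith
    rw [map_mul, eval_X, norm_mul, Real.rpow_add hT0]
    have h2 : ‖x i‖ ≤ T ^ (max D 0) :=
      (norm_le_pi_norm x i).trans (hx.trans
        (Real.rpow_le_rpow_of_exponent_le hT1 (le_max_left _ _)))
    exact mul_le_mul (hp T hT x hx) h2 (norm_nonneg _) (by positivity)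

/-- polynomial upper bounds for finitely many polynomials -/
theorem pb_fin {n : ℕ} {ι : Type} (F : Finset ι) (g : ι → MvPolynomial (Fin n) ℂ) (D : ℝ) :
    ∃ D1 : ℝ, 0 ≤ D1 ∧ ∀ T : ℝ, 2 ≤ T →
      ∀ x : Fin n → ℂ, ‖x‖ ≤ T ^ D → ∀ i ∈ F, ‖eval x (g i)‖ ≤ T ^ D1 := by
  classical
  induction F using Finset.induction_on with
  | empty => exact ⟨0, le_rfl, fun T _ x _ i hi => absurd hi (Finset.notMem_empty i)⟩
  | insert a s ha ih =>
    obtain ⟨d1, h1, ih⟩ := ih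
    obtain ⟨d2, h2, hg⟩ := pb (g a) D
    refine ⟨max d1 d2, by positivity, fun T hT x hx i hi => ?_⟩
    have hT1 : (1 : ℝ) ≤ T := by linarith
    rcases Finset.mem_insert.1 hi with rfl | hi
    · exact (hg T hT x hx).trans (Real.rpow_le_rpow_of_exponent_le hT1 (le_max_right _ _))
    · exact (ih T hT x hx i hi).trans (Real.rpow_le_rpow_of_exponent_le hT1 (le_max_left _ _))

/-- lower bound for a divisor -/
theorem lbd {n : ℕ} {R R' : MvPolynomial (Fin n) ℂ} (hR : R ∣ R') (D : ℝ) :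
    ∃ D1 : ℝ, 0 ≤ D1 ∧ ∀ T : ℝ, 2 ≤ T →
      ∀ x : Fin n → ℂ, ‖x‖ ≤ T ^ D → T ^ (-D) ≤ ‖eval x R'‖ → T ^ (-D1) ≤ ‖eval x R‖ := by
  obtain ⟨Q, rfl⟩ := hR
  obtain ⟨d, hd, hQ⟩ := pb Q D
  refine ⟨max (D + d) 0, le_max_right _ _, fun T hT x hx h => ?_⟩
  have hT0 : (0 : ℝ) < T := by linarith
  have hT1 : (1 : ℝ) ≤ T := by linarith
  have h1 := hQ T hT x hx
  rw [map_mul, norm_mul] at h
  have h2 : T ^ (-D) ≤ ‖eval x R‖ * T ^ d := h.trans (by gcongr)
  have h3 : T ^ (-(D + d)) ≤ ‖eval x R‖ := by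
    have : T ^ (-(D + d)) = T ^ (-D) * T ^ (-d) := by
      rw [← Real.rpow_add hT0]; congr 1; ring
    rw [this]
    calc T ^ (-D) * T ^ (-d) ≤ (‖eval x R‖ * T ^ d) * T ^ (-d) := by gcongr
      _ = ‖eval x R‖ * (T ^ d * T ^ (-d)) := by ring
      _ = ‖eval x R‖ := by rw [← Real.rpow_add hT0, add_neg_cancel, Real.rpow_zero, mul_one]
  refine le_trans ?_ h3
  apply Real.rpow_le_rpow_of_exponent_le hT1
  exact neg_le_neg (le_max_left _ _)

/-- two-sided bounds for finitely many divisors -/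
theorem two {n : ℕ} {ι : Type} (F : Finset ι) (g : ι → MvPolynomial (Fin n) ℂ)
    (R' : MvPolynomial (Fin n) ℂ) (hF : ∀ i ∈ F, g i ∣ R') (D : ℝ) :
    ∃ D1 : ℝ, 0 ≤ D1 ∧ ∀ T : ℝ, 2 ≤ T →
      ∀ x : Fin n → ℂ, ‖x‖ ≤ T ^ D → T ^ (-D) ≤ ‖eval x R'‖ → ∀ i ∈ F,
        T ^ (-D1) ≤ ‖eval x (g i)‖ ∧ ‖eval x (g i)‖ ≤ T ^ D1 := by
  classical
  induction F using Finset.induction_on with
  | empty => exact ⟨0, le_rfl, fun T _ x _ _ i hi => absurd hi (Finset.notMem_empty i)⟩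
  | insert a s ha ih =>
    obtain ⟨d1, h1, ih⟩ := ih fun i hi => hF i (Finset.mem_insert_of_mem hi)
    obtain ⟨d2, h2, hg⟩ := pb (g a) D
    obtain ⟨d3, h3, hl⟩ := lbd (hF a (Finset.mem_insert_self _ _)) D
    refine ⟨max d1 (max d2 d3), by positivity, fun T hT x hx hR i hi => ?_⟩
    have hT1 : (1 : ℝ) ≤ T := by linarith
    have m1 : d1 ≤ max d1 (max d2 d3) := le_max_left _ _
    have m2 : d2 ≤ max d1 (max d2 d3) := (le_max_left _ _).trans (le_max_right _ _)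
    have m3 : d3 ≤ max d1 (max d2 d3) := (le_max_right _ _).trans (le_max_right _ _)
    rcases Finset.mem_insert.1 hi with rfl | hi
    · exact ⟨(Real.rpow_le_rpow_of_exponent_le hT1 (neg_le_neg m3)).trans (hl T hT x hx hR),
        (hg T hT x hx).trans (Real.rpow_le_rpow_of_exponent_le hT1 m2)⟩
    · have := ih T hT x hx hR i hi
      exact ⟨(Real.rpow_le_rpow_of_exponent_le hT1 (neg_le_neg m1)).trans this.1,
        this.2.trans (Real.rpow_le_rpow_of_exponent_le hT1 m1)⟩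

theorem eval_zero_of_dvd {n : ℕ} {P g : MvPolynomial (Fin n) ℂ} (h : P ∣ g) {x : Fin n → ℂ}
    (hx : eval x P = 0) : eval x g = 0 := by
  obtain ⟨q, rfl⟩ := h
  rw [map_mul, hx, zero_mul]

end Pool.Agent.Q206.EG
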