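import Pool.Agent.Q72.EG.Stm

/-!
# VAL
-/

set_option autoImplicit false

namespace Pool.Agent.Q206.EG

open MvPolynomial Filter Topology Metric Pool.Agent.W996.EC Pool.Agent.Q72.EG

theorem val : S_val := by
  classical
  intro E _ O F c Y Z N p hF hc hY0 hZ0 hY hN hZ hsum
  set v := O.valuation with hv
  have hvY : v Y ≠ 0 := (Valuation.ne_zero_iff v).2 hY0
  have hvYpos : 0 < v Y := zero_lt_iff.2 hvY
  obtain ⟨e₁, he₁, hmin⟩ := F.exists_min_image (fun e => (N : ℤ) * e.1 + p * e.2) hF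
  have hpow : ∀ e ∈ F, v (c e * Y ^ e.1 * Z ^ e.2) ^ N = v Y ^ ((N : ℤ) * e.1 + p * e.2) := by
    intro e he
    rw [map_mul, map_mul, map_pow, map_pow, hc e he, one_mul, mul_pow, ← pow_mul, ← pow_mul,
      mul_comm e.2 N, pow_mul (v Z), hZ, zpow_add₀ hvY, zpow_mul _ p, zpow_natCast,
      mul_comm e.1 N]
    congr 1
  have hex : ∃ e₂ ∈ F, e₂ ≠ e₁ ∧ (N : ℤ) * e₂.1 + p * e₂.2 ≤ (N : ℤ) * e₁.1 + p * e₁.2 := by
    by_contra hcon
    push Not at hcon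
    have hlt : ∀ e ∈ F.erase e₁, v (c e * Y ^ e.1 * Z ^ e.2) <
        v (c e₁ * Y ^ e₁.1 * Z ^ e₁.2) := by
      intro e he
      obtain ⟨hne, hm⟩ := Finset.mem_erase.1 he
      have h1 := hcon e hm hne
      apply lt_of_pow_lt_pow_left₀ N zero_le
      rw [hpow e hm, hpow e₁ he₁]
      exact zpow_lt_zpow_right_of_lt_one₀ hvYpos hY h1
    rw [← Finset.add_sum_erase _ _ he₁] at hsum
    have h2 : c e₁ * Y ^ e₁.1 * Z ^ e₁.2 = -∑ e ∈ F.erase e₁, c e * Y ^ e.1 * Z ^ e.2 :=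
      eq_neg_of_add_eq_zero_left hsum
    have hne0 : c e₁ * Y ^ e₁.1 * Z ^ e₁.2 ≠ 0 := by
      have : c e₁ ≠ 0 := by
        intro h
        have := hc e₁ he₁
        rw [h, map_zero] at this
        exact zero_ne_one this
      exact mul_ne_zero (mul_ne_zero this (pow_ne_zero _ hY0)) (pow_ne_zero _ hZ0)
    have h3 : v (∑ e ∈ F.erase e₁, c e * Y ^ e.1 * Z ^ e.2) < v (c e₁ * Y ^ e₁.1 * Z ^ e₁.2) :=
      Valuation.map_sum_lt v ((Valuation.ne_zero_iff v).2 hne0) hlt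
    rw [h2, Valuation.map_neg] at h3
    exact lt_irrefl _ h3
  obtain ⟨e₂, he₂, hne, hle⟩ := hex
  have hNr : (0 : ℝ) < N := by exact_mod_cast hN
  have hconv : ∀ a b : ℕ × ℕ, (N : ℤ) * a.1 + p * a.2 ≤ (N : ℤ) * b.1 + p * b.2 →
      (a.1 : ℝ) + (p : ℝ) / N * a.2 ≤ b.1 + (p : ℝ) / N * b.2 := by
    intro a b hab
    have h1 : (N : ℝ) * a.1 + p * a.2 ≤ (N : ℝ) * b.1 + p * b.2 := by exact_mod_cast hab
    have h2 : ∀ q : ℕ × ℕ, (q.1 : ℝ) + (p : ℝ) / N * q.2 = ((N : ℝ) * q.1 + p * q.2) / N := by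
      intro q
      field_simp
    rw [h2 a, h2 b]
    gcongr
  refine ⟨e₁, he₁, e₂, he₂, ?_, fun e he => ⟨hconv _ _ (hmin e he),
    hconv _ _ (hle.trans (hmin e he))⟩⟩
  intro h2
  apply hne
  have h3 := hmin e₂ he₂
  have h4 : (N : ℤ) * e₂.1 = N * e₁.1 := by
    have h5 : (N : ℤ) * e₁.1 + p * e₁.2 ≤ (N : ℤ) * e₂.1 + p * e₂.2 := h3
    rw [h2] at h5 hle
    linarith
  have h5 : (e₂.1 : ℤ) = e₁.1 := by
    have : (N : ℤ) ≠ 0 := by exact_mod_cast hN.ne'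
    exact mul_left_cancel₀ this h4
  exact Prod.ext (by exact_mod_cast h5) h2.symm

end Pool.Agent.Q206.EG
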